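import Pool.Agent.K3h55.LT.Stm

/-! Brick CUT: the number of extensions of a function on the smaller tree. -/

set_option autoImplicit false

namespace Pool.Agent.K3h86.LT

open Pool.Agent.K3h55.LT

theorem root_cut {d : ℕ} (n : ℕ) : ∀ (r : ℕ) (t : Lab d (n + r)),
    root r (cut n r t) = root (n + r) t
  | 0, _ => rfl
  | _ + 1, _ => rfl

theorem adm_succ {d : ℕ} (S : Finset ℤ) (n : ℕ) (t : Lab d (n + 1)) :
    t ∈ Adm d S (n + 1) ↔
      ∀ i, |root n (sub t i) - root (n + 1) t| ≤ 1 ∧ sub t i ∈ Adm d S n := by
  constructor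
  · rintro ⟨h1, h2⟩ i
    exact ⟨(h1 i).1, (h1 i).2, h2 i⟩
  · intro h
    exact ⟨fun i => ⟨(h i).1, (h i).2.1⟩, fun i => (h i).2.2⟩

theorem cut_succ {d : ℕ} (n r : ℕ) (t : Lab d (n + r + 1)) (g : Lab d (r + 1)) :
    cut n (r + 1) t = g ↔ root (n + r + 1) t = root (r + 1) g ∧
      ∀ i, cut n r (sub (n := n + r) t i) = sub g i := by
  constructor
  · intro h
    subst h
    exact ⟨rfl, fun i => rfl⟩
  · rintro ⟨h1, h2⟩
    have h3 : (fun i => cut n r (sub (n := n + r) t i)) = fun i => sub g i := funext h2
    show ((root (n + r + 1) t, fun i => cut n r (sub (n := n + r) t i)) :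
      ℤ × (Fin d → Lab d r)) = g
    rw [h1, h3]
    rfl

/-- brick CUT -/
theorem t_CUT : S_CUT := by
  intro d S n r
  induction r with
  | zero => intro g; rfl
  | succ r ih =>
    intro g
    classical
    show (({t : Lab d (n + r + 1) | t ∈ Adm d S (n + r + 1) ∧ cut n (r + 1) t = g}.ncard : ℕ) : ℝ) =
      wt (fun k => (cnt d S n k : ℝ)) (r + 1) g
    unfold wt
    by_cases hg : ∀ i, |root r (sub g i) - root (r + 1) g| ≤ 1
    · rw [if_pos hg]
      let e : {t : Lab d (n + r + 1) // t ∈ Adm d S (n + r + 1) ∧ cut n (r + 1) t = g} ≃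
          ((i : Fin d) → {s : Lab d (n + r) // s ∈ Adm d S (n + r) ∧ cut n r s = sub g i}) :=
        { toFun := fun t i => ⟨sub t.1 i, ((adm_succ S (n + r) t.1).1 t.2.1 i).2,
            ((cut_succ n r t.1 g).1 t.2.2).2 i⟩
          invFun := fun b => ⟨((root (r + 1) g, fun i => (b i).1) : ℤ × (Fin d → Lab d (n + r))), by
            constructor
            · rw [adm_succ]
              intro i
              refine ⟨?_, (b i).2.1⟩
              have h1 : root (n + r) (b i).1 = root r (sub g i) := by
                rw [← root_cut, (b i).2.2]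
              show |root (n + r) (b i).1 - root (r + 1) g| ≤ 1
              rw [h1]
              exact hg i
            · rw [cut_succ]
              exact ⟨rfl, fun i => (b i).2.2⟩⟩
          left_inv := fun t => by
            apply Subtype.ext
            have h1 := ((cut_succ n r t.1 g).1 t.2.2).1
            show ((root (r + 1) g, fun i => sub t.1 i) : ℤ × (Fin d → Lab d (n + r))) = t.1
            rw [← h1]
            rfl
          right_inv := fun b => rfl }
      have h2 : {t : Lab d (n + r + 1) | t ∈ Adm d S (n + r + 1) ∧ cut n (r + 1) t = g}.ncard =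
          ∏ i : Fin d, {s : Lab d (n + r) | s ∈ Adm d S (n + r) ∧ cut n r s = sub g i}.ncard := by
        rw [← Nat.card_coe_set_eq]
        exact (Nat.card_congr e).trans Nat.card_pi
      rw [h2, Nat.cast_prod]
      exact Finset.prod_congr rfl fun i _ => ih (sub g i)
    · rw [if_neg hg]
      have h3 : {t : Lab d (n + r + 1) | t ∈ Adm d S (n + r + 1) ∧ cut n (r + 1) t = g} = ∅ := by
        ext t
        simp only [Set.mem_ofPred_eq, Set.mem_empty_iff_false, iff_false]
        rintro ⟨h4, h5⟩
        apply hg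
        intro i
        have h6 := ((adm_succ S (n + r) t).1 h4 i).1
        obtain ⟨h7, h8⟩ := (cut_succ n r t g).1 h5
        rw [← h8 i, root_cut, ← h7]
        exact h6
      rw [h3, Set.ncard_empty, Nat.cast_zero]

end Pool.Agent.K3h86.LT
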